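import Mathlib

/-! # The nim-sum array of two 2-regular sequences need not be 2-regular (Q2 of MP_02a275_nt)

Counterexample.  Write `n = 2^j (2m+1)` for `n ≥ 1` and put `a_n = m`, `b_n = 2^j`
(and `a_0 = b_0 = 0`).  Both are 2-regular:
`a_{2n} = a_n`, `a_{2n+1} = n`, `b_{2n} = 2 b_n`, `b_{2n+1} = 1`.
The diagonal of a 2-regular array is a 2-regular sequence, and the 2-kernel of the diagonal
`a_n ⊕ b_n` contains the sequences `n ↦ n ⊕ 2^j` for all `j`, which are linearly independent. -/

namespace Pool.Agent.Results.MP_02a275_nt.NimSumArrayNotRegular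

/-- The 2-kernel of a sequence `a`: all subsequences `n ↦ a (2^e n + r)`, `0 ≤ r < 2^e`. -/
def twoKernel (a : ℕ → ℤ) : Set (ℕ → ℤ) :=
  {f | ∃ e r : ℕ, r < 2 ^ e ∧ f = fun n => a (2 ^ e * n + r)}

/-- `a` is 2-regular: the `ℤ`-module generated by its 2-kernel is finitely generated. -/
def IsTwoRegular (a : ℕ → ℤ) : Prop :=
  (Submodule.span ℤ (twoKernel a)).FG

/-- If `a` lies in the span of a finite set which is stable under the two maps
`f ↦ f(2n)`, `f ↦ f(2n+1)`, then `a` is 2-regular. -/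
theorem isTwoRegular_of_stable (a : ℕ → ℤ) (S : Submodule ℤ (ℕ → ℤ)) (hS : S.FG) (ha : a ∈ S)
    (h0 : ∀ f ∈ S, (fun n => f (2 * n)) ∈ S) (h1 : ∀ f ∈ S, (fun n => f (2 * n + 1)) ∈ S) :
    IsTwoRegular a := by
  have key : ∀ e r : ℕ, r < 2 ^ e → ∀ f ∈ S, (fun n => f (2 ^ e * n + r)) ∈ S := by
    intro e
    induction e with
    | zero =>
      intro r hr f hf
      have : r = 0 := by simpa using hr
      subst this
      simpa using hf
    | succ e ih =>
      intro r hr f hf
      -- `f (2^(e+1) n + r)`, with `r = 2 r' + δ`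
      rcases Nat.even_or_odd' r with ⟨r', hr' | hr'⟩
      · have h2 := ih r' (by rw [pow_succ] at hr; omega) _ (h0 f hf)
        have : (fun n => f (2 ^ (e + 1) * n + r)) = (fun n => f (2 * (2 ^ e * n + r'))) := by
          funext n
          congr 1
          rw [hr', pow_succ]; ring
        rw [this]
        exact h2
      · have h2 := ih r' (by rw [pow_succ] at hr; omega) _ (h1 f hf)
        have : (fun n => f (2 ^ (e + 1) * n + r)) = (fun n => f (2 * (2 ^ e * n + r') + 1)) := by
          funext n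
          congr 1
          rw [hr', pow_succ]; ring
        rw [this]
        exact h2
  have hle : Submodule.span ℤ (twoKernel a) ≤ S := by
    rw [Submodule.span_le]
    rintro f ⟨e, r, hr, rfl⟩
    exact key e r hr a ha
  have : Module.Finite ℤ S := Module.Finite.iff_fg.mpr hS
  have : IsNoetherian ℤ S := isNoetherian_of_isNoetherianRing_of_finite ℤ S
  have hN : (S : Submodule ℤ (ℕ → ℤ)).FG := hS
  exact (isNoetherian_submodule.mp inferInstance) _ hle

/-- Finitely generated span of a finite list, with stability checked on generators. -/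
theorem isTwoRegular_of_gens (a : ℕ → ℤ) (G : Finset (ℕ → ℤ))
    (ha : a ∈ Submodule.span ℤ (G : Set (ℕ → ℤ)))
    (h0 : ∀ f ∈ G, (fun n => f (2 * n)) ∈ Submodule.span ℤ (G : Set (ℕ → ℤ)))
    (h1 : ∀ f ∈ G, (fun n => f (2 * n + 1)) ∈ Submodule.span ℤ (G : Set (ℕ → ℤ))) :
    IsTwoRegular a := by
  refine isTwoRegular_of_stable a (Submodule.span ℤ (G : Set (ℕ → ℤ))) ⟨G, rfl⟩ ha ?_ ?_
  · intro f hf
    induction hf using Submodule.span_induction with
    | mem x hx => exact h0 x (by simpa using hx)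
    | zero => exact Submodule.zero_mem _
    | add x y _ _ hx hy => exact Submodule.add_mem _ hx hy
    | smul c x _ hx => exact Submodule.smul_mem _ c hx
  · intro f hf
    induction hf using Submodule.span_induction with
    | mem x hx => exact h1 x (by simpa using hx)
    | zero => exact Submodule.zero_mem _
    | add x y _ _ hx hy => exact Submodule.add_mem _ hx hy
    | smul c x _ hx => exact Submodule.smul_mem _ c hx

/-- `a_n = m` for `n = 2^j (2m+1)`. -/
def oddIdx (n : ℕ) : ℕ := (n / 2 ^ (padicValNat 2 n)) / 2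

/-- `b_n = 2^j` for `n = 2^j (2m+1)`, `b_0 = 0`. -/
def twoPart (n : ℕ) : ℕ := if n = 0 then 0 else 2 ^ (padicValNat 2 n)

theorem val_two_mul (n : ℕ) (hn : n ≠ 0) : padicValNat 2 (2 * n) = padicValNat 2 n + 1 := by
  rw [padicValNat.mul (by norm_num) hn]
  simp [add_comm]

theorem val_odd (n : ℕ) : padicValNat 2 (2 * n + 1) = 0 := by
  apply padicValNat.eq_zero_of_not_dvd
  omega

theorem oddIdx_two_mul (n : ℕ) : oddIdx (2 * n) = oddIdx n := by
  unfold oddIdx
  rcases Nat.eq_zero_or_pos n with h | h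
  · subst h; simp
  · rw [val_two_mul n (by omega), pow_succ, mul_comm (2 ^ _) 2, Nat.mul_div_mul_left _ _ (by norm_num)]

theorem oddIdx_odd (n : ℕ) : oddIdx (2 * n + 1) = n := by
  unfold oddIdx
  rw [val_odd]
  simp
  omega

theorem twoPart_two_mul (n : ℕ) : twoPart (2 * n) = 2 * twoPart n := by
  unfold twoPart
  rcases Nat.eq_zero_or_pos n with h | h
  · subst h; simp
  · rw [if_neg (by omega), if_neg (by omega), val_two_mul n (by omega), pow_succ, mul_comm]

theorem twoPart_odd (n : ℕ) : twoPart (2 * n + 1) = 1 := by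
  unfold twoPart
  rw [val_odd]
  simp

theorem regular_oddIdx : IsTwoRegular (fun n => (oddIdx n : ℤ)) := by
  classical
  refine isTwoRegular_of_gens _ {(fun n : ℕ => (oddIdx n : ℤ)), (fun n : ℕ => (n : ℤ)), (fun _ : ℕ => 1)} ?_ ?_ ?_
  · apply Submodule.subset_span
    simp
  · intro f hf
    simp only [Finset.mem_insert, Finset.mem_singleton] at hf
    rcases hf with rfl | rfl | rfl
    · apply Submodule.subset_span
      simp [oddIdx_two_mul]
    · have : (fun n : ℕ => ((2 * n : ℕ) : ℤ)) = (2 : ℤ) • (fun n : ℕ => (n : ℤ)) := by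
        funext n; simp
      show (fun n : ℕ => ((2 * n : ℕ) : ℤ)) ∈ _
      rw [this]
      exact Submodule.smul_mem _ _ (Submodule.subset_span (by simp))
    · exact Submodule.subset_span (by simp)
  · intro f hf
    simp only [Finset.mem_insert, Finset.mem_singleton] at hf
    rcases hf with rfl | rfl | rfl
    · apply Submodule.subset_span
      simp [oddIdx_odd]
    · have : (fun n : ℕ => ((2 * n + 1 : ℕ) : ℤ)) =
          (2 : ℤ) • (fun n : ℕ => (n : ℤ)) + (fun _ => 1) := by
        funext n; simp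
      show (fun n : ℕ => ((2 * n + 1 : ℕ) : ℤ)) ∈ _
      rw [this]
      exact Submodule.add_mem _ (Submodule.smul_mem _ _ (Submodule.subset_span (by simp)))
        (Submodule.subset_span (by simp))
    · exact Submodule.subset_span (by simp)

theorem regular_twoPart : IsTwoRegular (fun n => (twoPart n : ℤ)) := by
  classical
  refine isTwoRegular_of_gens _ {(fun n : ℕ => (twoPart n : ℤ)), (fun _ : ℕ => 1)} ?_ ?_ ?_
  · apply Submodule.subset_span
    simp
  · intro f hf
    simp only [Finset.mem_insert, Finset.mem_singleton] at hf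
    rcases hf with rfl | rfl
    · have : (fun n : ℕ => (twoPart (2 * n) : ℤ)) = (2 : ℤ) • (fun n : ℕ => (twoPart n : ℤ)) := by
        funext n; simp [twoPart_two_mul]
      show (fun n : ℕ => (twoPart (2 * n) : ℤ)) ∈ _
      rw [this]
      exact Submodule.smul_mem _ _ (Submodule.subset_span (by simp))
    · exact Submodule.subset_span (by simp)
  · intro f hf
    simp only [Finset.mem_insert, Finset.mem_singleton] at hf
    rcases hf with rfl | rfl
    · apply Submodule.subset_span
      simp [twoPart_odd]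
    · exact Submodule.subset_span (by simp)

theorem oddIdx_val (j n : ℕ) : oddIdx (2 ^ j * (2 * n + 1)) = n := by
  induction j with
  | zero => simpa using oddIdx_odd n
  | succ j ih => rw [pow_succ, mul_comm (2 ^ j) 2, mul_assoc, oddIdx_two_mul, ih]

theorem twoPart_val (j n : ℕ) : twoPart (2 ^ j * (2 * n + 1)) = 2 ^ j := by
  induction j with
  | zero => simpa using twoPart_odd n
  | succ j ih => rw [pow_succ, mul_comm (2 ^ j) 2, mul_assoc, twoPart_two_mul, ih]

/-- The kernel element `n ↦ n ⊕ 2^j`. -/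
def ker (j : ℕ) : ℕ → ℤ := fun n => ((n ^^^ 2 ^ j : ℕ) : ℤ)

theorem ker_zero (j : ℕ) : ker j 0 = 2 ^ j := by
  simp [ker]

theorem ker_pow_self (j : ℕ) : ker j (2 ^ j) = 0 := by
  simp [ker]

theorem xor_two_pow_of_lt (j k : ℕ) (h : j < k) : (2 ^ k ^^^ 2 ^ j : ℕ) = 2 ^ k + 2 ^ j := by
  have hlt : 2 ^ j < 2 ^ k := Nat.pow_lt_pow_right (by norm_num) h
  have h1 := Nat.two_pow_add_eq_or_of_lt hlt 1
  rw [mul_one] at h1
  rw [h1]
  apply Nat.eq_of_testBit_eq
  intro i
  rw [Nat.testBit_xor, Nat.testBit_or, Nat.testBit_two_pow, Nat.testBit_two_pow]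
  by_cases hk : k = i
  · subst hk
    have : ¬ (j = k) := by omega
    simp [this]
  · simp [hk]

theorem ker_pow_ne (j k : ℕ) (h : k ≠ j) : ker j (2 ^ k) = 2 ^ k + 2 ^ j := by
  unfold ker
  have h1 : (2 ^ k ^^^ 2 ^ j : ℕ) = 2 ^ k + 2 ^ j := by
    rcases Nat.lt_or_gt_of_ne h with h' | h'
    · rw [Nat.xor_comm, xor_two_pow_of_lt k j h']; ring
    · exact xor_two_pow_of_lt j k h'
  rw [h1]
  push_cast
  ring

theorem ker_linearIndependent : LinearIndependent ℤ ker := by
  rw [linearIndependent_iff']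
  intro s g hg
  -- the sum of the coefficients
  have h0 : ∑ i ∈ s, g i * 2 ^ i = 0 := by
    have := congrFun hg 0
    simpa [Finset.sum_apply, ker_zero] using this
  have hk : ∀ k ∈ s, (2 : ℤ) * g k = ∑ i ∈ s, g i := by
    intro k hk
    have h1 := congrFun hg (2 ^ k)
    simp only [Finset.sum_apply, Pi.smul_apply, smul_eq_mul, Pi.zero_apply] at h1
    have h2 : ∑ i ∈ s, g i * ker i (2 ^ k) = ∑ i ∈ s, (g i * (2 ^ k + 2 ^ i) - if i = k then g i * (2 * 2 ^ k) else 0) := by
      apply Finset.sum_congr rfl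
      intro i _
      by_cases hik : i = k
      · subst hik
        rw [ker_pow_self, if_pos rfl]; ring
      · rw [ker_pow_ne i k (Ne.symm hik), if_neg hik]; ring
    rw [h2, Finset.sum_sub_distrib, Finset.sum_ite_eq' s k, if_pos hk] at h1
    simp only [mul_add, Finset.sum_add_distrib, h0, add_zero] at h1
    rw [← Finset.sum_mul] at h1
    have hpos : (2 : ℤ) ^ k ≠ 0 := by positivity
    have h3 : (∑ i ∈ s, g i - 2 * g k) * 2 ^ k = 0 := by linarith
    rcases mul_eq_zero.mp h3 with h4 | h4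
    · linarith
    · exact absurd h4 hpos
  have hk0 : ∀ k, k ∉ s → (0 : ℤ) = ∑ i ∈ s, g i := by
    intro k hk
    have h1 := congrFun hg (2 ^ k)
    simp only [Finset.sum_apply, Pi.smul_apply, smul_eq_mul, Pi.zero_apply] at h1
    have h2 : ∑ i ∈ s, g i * ker i (2 ^ k) = ∑ i ∈ s, (g i * (2 ^ k + 2 ^ i)) := by
      apply Finset.sum_congr rfl
      intro i hi
      have hik : i ≠ k := fun h => hk (h ▸ hi)
      rw [ker_pow_ne i k (Ne.symm hik)]
    rw [h2] at h1
    simp only [mul_add, Finset.sum_add_distrib, h0, add_zero] at h1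
    rw [← Finset.sum_mul] at h1
    have hpos : (2 : ℤ) ^ k ≠ 0 := by positivity
    rcases mul_eq_zero.mp h1 with h4 | h4
    · linarith
    · exact absurd h4 hpos
  obtain ⟨k, hks⟩ := Infinite.exists_notMem_finset s
  have hsum := hk0 k hks
  intro i hi
  have := hk i hi
  linarith

theorem xor_not_regular : ¬ IsTwoRegular (fun n => ((oddIdx n ^^^ twoPart n : ℕ) : ℤ)) := by
  intro hreg
  set S := Submodule.span ℤ (twoKernel (fun n => ((oddIdx n ^^^ twoPart n : ℕ) : ℤ))) with hS
  have hmem : ∀ j, ker j ∈ S := by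
    intro j
    apply Submodule.subset_span
    have hlt : 2 ^ j < 2 ^ (j + 1) := Nat.pow_lt_pow_right (by norm_num) (by omega)
    refine ⟨j + 1, 2 ^ j, hlt, ?_⟩
    funext n
    have h1 : 2 ^ (j + 1) * n + 2 ^ j = 2 ^ j * (2 * n + 1) := by rw [pow_succ]; ring
    show ker j n = ((oddIdx (2 ^ (j + 1) * n + 2 ^ j) ^^^ twoPart (2 ^ (j + 1) * n + 2 ^ j) : ℕ) : ℤ)
    rw [h1, oddIdx_val, twoPart_val]
    rfl
  have hfin : Module.Finite ℤ S := Module.Finite.iff_fg.mpr hreg
  let v : ℕ → S := fun j => ⟨ker j, hmem j⟩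
  have hv : LinearIndependent ℤ v := by
    apply LinearIndependent.of_comp S.subtype
    exact ker_linearIndependent
  have hcard := hv.finite
  exact not_finite ℕ

/-- A two-dimensional array `c` is 2-regular: there are finitely many arrays (the elements of `C`)
such that every subarray `(m, n) ↦ c (2^e m + r) (2^e n + t)`, `0 ≤ r, t < 2^e`, is a `ℤ`-linear
combination of them. -/
def IsTwoRegularArray (c : ℕ → ℕ → ℤ) : Prop :=
  ∃ C : Finset (ℕ → ℕ → ℤ), ∀ e r t : ℕ, r < 2 ^ e → t < 2 ^ e →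
    (fun m n => c (2 ^ e * m + r) (2 ^ e * n + t)) ∈ Submodule.span ℤ (C : Set (ℕ → ℕ → ℤ))

/-- Restriction of an array to its diagonal, as a linear map. -/
def diag : (ℕ → ℕ → ℤ) →ₗ[ℤ] (ℕ → ℤ) where
  toFun c := fun n => c n n
  map_add' _ _ := rfl
  map_smul' _ _ := rfl

/-- The diagonal of a 2-regular array is a 2-regular sequence. -/
theorem diag_regular (c : ℕ → ℕ → ℤ) (hc : IsTwoRegularArray c) :
    IsTwoRegular (fun n => c n n) := by
  obtain ⟨C, hC⟩ := hc
  have hfg : (Submodule.map diag (Submodule.span ℤ (C : Set (ℕ → ℕ → ℤ)))).FG :=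
    Submodule.FG.map _ ⟨C, rfl⟩
  have hle : Submodule.span ℤ (twoKernel (fun n => c n n)) ≤
      Submodule.map diag (Submodule.span ℤ (C : Set (ℕ → ℕ → ℤ))) := by
    rw [Submodule.span_le]
    rintro f ⟨e, r, hr, rfl⟩
    exact ⟨_, hC e r r hr hr, rfl⟩
  have : Module.Finite ℤ (Submodule.map diag (Submodule.span ℤ (C : Set (ℕ → ℕ → ℤ)))) :=
    Module.Finite.iff_fg.mpr hfg
  have : IsNoetherian ℤ (Submodule.map diag (Submodule.span ℤ (C : Set (ℕ → ℕ → ℤ)))) :=
    isNoetherian_of_isNoetherianRing_of_finite ℤ _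
  exact (isNoetherian_submodule.mp inferInstance) _ hle

/-- **Negative answer to Q2.** There are 2-regular sequences `a`, `b` of non-negative integers such
that the two-dimensional array `(a_i ⊕ b_j)` is not 2-regular. -/
theorem result : ∃ a b : ℕ → ℕ, IsTwoRegular (fun n => (a n : ℤ)) ∧
    IsTwoRegular (fun n => (b n : ℤ)) ∧
    ¬ IsTwoRegularArray (fun i j => ((a i ^^^ b j : ℕ) : ℤ)) :=
  ⟨oddIdx, twoPart, regular_oddIdx, regular_twoPart,
   fun h => xor_not_regular
     (diag_regular (fun i j => ((oddIdx i ^^^ twoPart j : ℕ) : ℤ)) h)⟩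

end Pool.Agent.Results.MP_02a275_nt.NimSumArrayNotRegular
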