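import Mathlib

namespace Pool.Agent.Results.MP_02a275_nt.NimSumSquare

/-- The 2-kernel of an integer sequence `a`: all subsequences `n ↦ a (2 ^ e * n + r)`
with `r < 2 ^ e`. -/
def twoKernel (a : ℕ → ℤ) : Set (ℕ → ℤ) :=
  {s | ∃ e r : ℕ, r < 2 ^ e ∧ s = fun n => a (2 ^ e * n + r)}

/-- A sequence is 2-regular if the `ℤ`-module generated by its 2-kernel is finitely generated. -/
def IsTwoRegular (a : ℕ → ℤ) : Prop :=
  (Submodule.span ℤ (twoKernel a)).FG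

theorem xor_add_two_mul_and (x y : ℕ) : (x ^^^ y) + 2 * (x &&& y) = x + y := by
  induction x using Nat.strong_induction_on generalizing y with
  | _ x ih =>
    rcases Nat.eq_zero_or_pos x with hx | hx
    · subst hx; simp
    · have h := ih (x / 2) (by omega) (y / 2)
      have h1 : (x ^^^ y) / 2 = x / 2 ^^^ y / 2 := Nat.xor_div_two
      have h2 : (x &&& y) / 2 = x / 2 &&& y / 2 := Nat.and_div_two
      have h3 : (x ^^^ y) % 2 = 1 ↔ ¬ (x % 2 = 1 ↔ y % 2 = 1) := Nat.xor_mod_two_eq_one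
      have h4 : (x &&& y) % 2 = 1 ↔ x % 2 = 1 ∧ y % 2 = 1 := Nat.and_mod_two_eq_one
      rw [← h1, ← h2] at h
      clear h1 h2 ih
      generalize x ^^^ y = u at *
      generalize x &&& y = v at *
      rcases Nat.mod_two_eq_zero_or_one x with hx2 | hx2 <;>
      rcases Nat.mod_two_eq_zero_or_one y with hy2 | hy2 <;>
      rcases Nat.mod_two_eq_zero_or_one u with hu2 | hu2 <;>
      rcases Nat.mod_two_eq_zero_or_one v with hv2 | hv2 <;>
      omega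

/-- The value of `n ^ 2 &&& n` at `n = 2 ^ (j + d + 4) + 2 ^ (j + 2)`. -/
theorem sq_and_self (j d : ℕ) :
    ((2 ^ (j + 3) * 2 ^ (d + 1) + 2 ^ (j + 2)) ^ 2 &&&
      (2 ^ (j + 3) * 2 ^ (d + 1) + 2 ^ (j + 2))) = if d = j then 4 ^ (j + 2) else 0 := by
  have hn : 2 ^ (j + 3) * 2 ^ (d + 1) + 2 ^ (j + 2) = 2 ^ (j + d + 4) ||| 2 ^ (j + 2) := by
    have h := Nat.two_pow_add_eq_or_of_lt (i := j + d + 4) (b := 2 ^ (j + 2))
      (Nat.pow_lt_pow_right (by norm_num) (by omega)) 1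
    rw [Nat.mul_one] at h
    rw [← h]; congr 1; ring
  have hlt1 : 2 ^ (2 * j + 4) < 2 ^ (2 * j + d + 7) :=
    Nat.pow_lt_pow_right (by norm_num) (by omega)
  have hlt2 : 2 ^ (2 * j + d + 7) + 2 ^ (2 * j + 4) < 2 ^ (2 * j + 2 * d + 8) := by
    have h5 : 2 ^ (2 * j + 2 * d + 8) = 2 * 2 ^ d * 2 ^ (2 * j + d + 7) := by ring
    have h6 : 1 ≤ 2 ^ d := Nat.one_le_two_pow
    have h7 : 2 * 2 ^ (2 * j + d + 7) ≤ 2 * 2 ^ d * 2 ^ (2 * j + d + 7) :=
      Nat.mul_le_mul_right _ (by omega)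
    rw [h5]
    omega
  have hsq : (2 ^ (j + 3) * 2 ^ (d + 1) + 2 ^ (j + 2)) ^ 2 =
      2 ^ (2 * j + 2 * d + 8) ||| (2 ^ (2 * j + d + 7) ||| 2 ^ (2 * j + 4)) := by
    have h7 := Nat.two_pow_add_eq_or_of_lt (i := 2 * j + d + 7) (b := 2 ^ (2 * j + 4)) hlt1 1
    rw [Nat.mul_one] at h7
    rw [← h7]
    have h8 := Nat.two_pow_add_eq_or_of_lt (i := 2 * j + 2 * d + 8)
      (b := 2 ^ (2 * j + d + 7) + 2 ^ (2 * j + 4)) hlt2 1
    rw [Nat.mul_one] at h8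
    rw [← h8]
    ring
  rw [hsq, hn]
  have h4 : (4 : ℕ) ^ (j + 2) = 2 ^ (2 * j + 4) := by
    rw [show (4 : ℕ) = 2 ^ 2 by norm_num, ← pow_mul]; congr 1
  apply Nat.eq_of_testBit_eq
  intro i
  rw [h4]
  by_cases hdj : d = j
  · subst hdj
    simp only [Nat.testBit_and, Nat.testBit_or, Nat.testBit_two_pow, if_true]
    by_cases hi : 2 * d + 4 = i
    · subst hi
      simp
      left; omega
    · simp only [hi]
      simp
      rintro (h | h) <;> omega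
  · simp only [Nat.testBit_and, Nat.testBit_or, Nat.testBit_two_pow, if_neg hdj,
      Nat.zero_testBit]
    simp
    rintro (h | h | h) <;> omega

theorem twoRegular_id : IsTwoRegular (fun n => ((n : ℕ) : ℤ)) := by
  refine Submodule.FG.of_le
    (T := Submodule.span ℤ {(fun n => (n : ℤ) : ℕ → ℤ), (fun _ => 1 : ℕ → ℤ)})
    (Submodule.fg_span (by simp)) ?_
  rw [Submodule.span_le]
  rintro s ⟨e, r, -, rfl⟩
  rw [SetLike.mem_coe, Submodule.mem_span_pair]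
  refine ⟨2 ^ e, r, ?_⟩
  funext n
  simp

theorem twoRegular_sq : IsTwoRegular (fun n => ((n ^ 2 : ℕ) : ℤ)) := by
  refine Submodule.FG.of_le
    (T := Submodule.span ℤ {(fun n => (n : ℤ) ^ 2 : ℕ → ℤ), (fun n => (n : ℤ) : ℕ → ℤ),
      (fun _ => 1 : ℕ → ℤ)})
    (Submodule.fg_span (by simp)) ?_
  rw [Submodule.span_le]
  rintro s ⟨e, r, -, rfl⟩
  rw [SetLike.mem_coe, Submodule.mem_span_triple]
  refine ⟨4 ^ e, 2 * 2 ^ e * r, r ^ 2, ?_⟩
  funext n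
  have : (4 : ℤ) ^ e = (2 ^ e) ^ 2 := by
    rw [← pow_mul, mul_comm, pow_mul]; norm_num
  simp [this]
  ring

theorem not_twoRegular : ¬ IsTwoRegular (fun n => ((n ^ 2 ^^^ n : ℕ) : ℤ)) := by
  intro hreg
  unfold IsTwoRegular at hreg
  set M := Submodule.span ℤ (twoKernel (fun n => ((n ^ 2 ^^^ n : ℕ) : ℤ))) with hM
  let φ : (ℕ → ℤ) →ₗ[ℤ] (ℕ → ℤ) := LinearMap.funLeft ℤ ℤ (fun d => 2 ^ (d + 1))
  let N : Submodule ℤ (ℕ → ℤ) := Submodule.span ℤ {(fun d => 4 ^ d : ℕ → ℤ),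
      (fun d => 2 ^ d : ℕ → ℤ), (fun _ => 1 : ℕ → ℤ)}
  have hN : N.FG := Submodule.fg_span (by simp)
  have hFG : (M.map φ ⊔ N).FG := (hreg.map φ).sup hN
  have hmem : ∀ j : ℕ, (Pi.single j (2 * 4 ^ (j + 2)) : ℕ → ℤ) ∈ M.map φ ⊔ N := by
    intro j
    have h1 : φ (fun m => (((2 ^ (j + 3) * m + 2 ^ (j + 2)) ^ 2 ^^^
        (2 ^ (j + 3) * m + 2 ^ (j + 2)) : ℕ) : ℤ)) ∈ M.map φ := by
      apply Submodule.mem_map_of_mem
      apply Submodule.subset_span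
      exact ⟨j + 3, 2 ^ (j + 2), Nat.pow_lt_pow_right (by norm_num) (by omega), rfl⟩
    have h2 : (fun d => (((2 ^ (j + 3) * 2 ^ (d + 1) + 2 ^ (j + 2)) ^ 2 +
        (2 ^ (j + 3) * 2 ^ (d + 1) + 2 ^ (j + 2)) : ℕ) : ℤ)) ∈ N := by
      rw [Submodule.mem_span_triple]
      refine ⟨4 ^ (j + 4), 2 ^ (2 * j + 7) + 2 ^ (j + 4), 4 ^ (j + 2) + 2 ^ (j + 2), ?_⟩
      funext d
      have h4 : ∀ k : ℕ, (4 : ℤ) ^ k = (2 ^ k) ^ 2 := by
        intro k
        rw [← pow_mul, mul_comm, pow_mul]; norm_num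
      simp only [Pi.add_apply, Pi.smul_apply, smul_eq_mul, h4]
      push_cast
      ring
    have h3 : (Pi.single j (2 * 4 ^ (j + 2)) : ℕ → ℤ) =
        (fun d => (((2 ^ (j + 3) * 2 ^ (d + 1) + 2 ^ (j + 2)) ^ 2 +
        (2 ^ (j + 3) * 2 ^ (d + 1) + 2 ^ (j + 2)) : ℕ) : ℤ)) -
        φ (fun m => (((2 ^ (j + 3) * m + 2 ^ (j + 2)) ^ 2 ^^^
        (2 ^ (j + 3) * m + 2 ^ (j + 2)) : ℕ) : ℤ)) := by
      funext d
      rw [Pi.sub_apply, LinearMap.funLeft_apply,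
        ← xor_add_two_mul_and ((2 ^ (j + 3) * 2 ^ (d + 1) + 2 ^ (j + 2)) ^ 2), sq_and_self]
      by_cases hd : d = j
      · subst hd
        simp
      · simp [hd]
    rw [h3]
    exact Submodule.sub_mem _ (Submodule.mem_sup_right h2) (Submodule.mem_sup_left h1)
  have hind : LinearIndependent ℤ (fun j : ℕ => (Pi.single j (2 * 4 ^ (j + 2)) : ℕ → ℤ)) :=
    Pi.linearIndependent_single_of_ne_zero (fun j => by positivity)
  have hind' : LinearIndependent ℤ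
      (fun j : ℕ => (⟨Pi.single j (2 * 4 ^ (j + 2)), hmem j⟩ : ↥(M.map φ ⊔ N))) :=
    LinearIndependent.of_comp (M.map φ ⊔ N).subtype hind
  have : Module.Finite ℤ ↥(M.map φ ⊔ N) := Module.Finite.iff_fg.mpr hFG
  have hfin := hind'.finite_of_isNoetherian
  exact not_finite ℕ

/-- The nim sum of two 2-regular sequences of non-negative integers need not be 2-regular. -/
theorem result : ∃ a b : ℕ → ℕ,
    IsTwoRegular (fun n => (a n : ℤ)) ∧ IsTwoRegular (fun n => (b n : ℤ)) ∧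
      ¬ IsTwoRegular (fun n => ((a n ^^^ b n : ℕ) : ℤ)) :=
  ⟨fun n => n ^ 2, fun n => n, twoRegular_sq, twoRegular_id, not_twoRegular⟩

end Pool.Agent.Results.MP_02a275_nt.NimSumSquare
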